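import Mathlib
import Pool.Agent.Lib_helper37.Mac.Final

/-!
# The first-order asymptotics of `c_ν`

`c_ν = 1/4 + (Λ + o(1)) ν^(-2/3)` with `Λ = (π / (16 β))^(2/3)`, where `β = betaStar` is an explicit
extremal constant about sums of autocorrelations of finite sequences; `β ≥ 8 / π²` and
`0.388 < Λ < 0.3886`.

The definitions are in `Pool.Agent.Lib_helper37.Mac.Defs`.
-/

set_option autoImplicit false

namespace Pool.Agent.Results.MP_ef82d1_co.Asymptotics

open Finset Real Pool.Agent.LibHelper37.Mac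

/-- For `ν ≥ 2` the set defining `c_ν` is nonempty and bounded above (by `1`), so that `c_ν` is its
genuine supremum. -/
theorem cConst_isLUB (ν : ℕ) (hν : 2 ≤ ν) : IsLUB (cSet ν) (cConst ν) := by
  refine isLUB_csSup ⟨0, zero_mem_cSet ν⟩ ⟨1, fun c hc => ?_⟩
  set D := ttour ν (fun _ _ => 1) (fun _ _ _ => zero_le_one) with hD
  have h1 := hc.2 (Fin ν) D (ttour_acyclic _ _ _) (ttour_maxPathOrder _ _ _ (by omega))
  have h2 : D.mac ≤ D.total := by
    refine Finset.sup'_le _ _ fun X _ => ?_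
    unfold WDigraph.cut WDigraph.total
    calc ∑ u ∈ X, ∑ v ∈ Xᶜ, D.w u v ≤ ∑ u ∈ X, ∑ v, D.w u v :=
          Finset.sum_le_sum fun u _ => Finset.sum_le_sum_of_subset_of_nonneg
            (Finset.subset_univ _) fun v _ _ => D.w_nonneg u v
      _ ≤ ∑ u, ∑ v, D.w u v := Finset.sum_le_sum_of_subset_of_nonneg
            (Finset.subset_univ _) fun u _ _ => Finset.sum_nonneg fun v _ => D.w_nonneg u v
  have h3 : 0 < D.total := by
    have h4 : (1 : ℝ) ≤ D.total := by
      calc (1 : ℝ) = D.w ⟨0, by omega⟩ ⟨1, by omega⟩ := by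
            show (1 : ℝ) = if (⟨0, by omega⟩ : Fin ν) < ⟨1, by omega⟩ then 1 else 0
            rw [if_pos (by show 0 < 1; norm_num)]
        _ ≤ ∑ v, D.w ⟨0, by omega⟩ v := Finset.single_le_sum
            (f := fun v => D.w ⟨0, by omega⟩ v) (fun v _ => D.w_nonneg _ v) (Finset.mem_univ _)
        _ ≤ ∑ u, ∑ v, D.w u v := Finset.single_le_sum (f := fun u => ∑ v, D.w u v)
            (fun u _ => Finset.sum_nonneg fun v _ => D.w_nonneg u v) (Finset.mem_univ _)
    linarith
  have h5 : c * D.total ≤ 1 * D.total := by linarith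
  exact le_of_mul_le_mul_right h5 h3

/-- `(c_ν - 1/4) ν^(2/3)` converges to `Λ = (π / (16 β))^(2/3)`, where `β ≥ 8 / π²` is the extremal
constant `betaStar`, and `0.388 < Λ < 0.3886`. -/
theorem result :
    Filter.Tendsto (fun ν : ℕ => (cConst ν - 1 / 4) * (ν : ℝ) ^ (2 / 3 : ℝ)) Filter.atTop
      (nhds ((π / (16 * betaStar)) ^ (2 / 3 : ℝ))) ∧
    8 / π ^ 2 ≤ betaStar ∧
    0.388 < (π / (16 * betaStar)) ^ (2 / 3 : ℝ) ∧
    (π / (16 * betaStar)) ^ (2 / 3 : ℝ) < 0.3886 :=
  ⟨main_limit.1, betaStar_ge, main_limit.2.1, main_limit.2.2⟩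

end Pool.Agent.Results.MP_ef82d1_co.Asymptotics
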