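import Mathlib
import Pool.Agent.Lib_helper99.Mac.Params

/-!
# `c_ν ≤ 1/4 + ν^(-2/3)`: the exponent `-2/3` in the known lower bound is optimal

The extremal weighting of the transitive tournament on `ν` vertices is a sum of unweighted
transitive tournaments on the windows `{x, …, x + k - 1}` with `k ≈ (3/4) ν^(2/3)`, with multipliers
given by a `C¹` quadratic spline in `x`.
-/

set_option autoImplicit false

namespace Pool.Agent.Results.MP_ef82d1_co.UpperBound

open Finset

/-- A weighted digraph with vertex set `V`: the arcs, and a weight `w u v ≥ 0` for each arc `(u, v)`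
(by convention `w u v = 0` if `(u, v)` is not an arc). -/
structure WDigraph (V : Type) where
  Arc : V → V → Prop
  w : V → V → ℝ
  w_nonneg : ∀ u v, 0 ≤ w u v
  w_eq_zero : ∀ u v, ¬ Arc u v → w u v = 0

namespace WDigraph

variable {V : Type} (D : WDigraph V)

/-- There is no directed cycle. -/
def Acyclic : Prop := ∀ v, ¬ Relation.TransGen D.Arc v v

/-- `l` is the sequence of vertices of a directed path (at least one vertex, no vertex repeated,
consecutive vertices joined by arcs); the order of the path is `l.length`. -/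
def IsPath (l : List V) : Prop := l ≠ [] ∧ l.Nodup ∧ l.IsChain D.Arc

/-- The maximum path order of `D` is `n`. -/
def MaxPathOrder (n : ℕ) : Prop := IsGreatest {k | ∃ l, D.IsPath l ∧ l.length = k} n

/-- The total weight `w(D)`. -/
def total [Fintype V] : ℝ := ∑ u, ∑ v, D.w u v

/-- The weight of the directed cut `(X, V ∖ X)`: the total weight of the arcs with tail in `X` and
head outside `X`. -/
def cut [Fintype V] [DecidableEq V] (X : Finset V) : ℝ := ∑ u ∈ X, ∑ v ∈ Xᶜ, D.w u v

/-- `mac(D)`, the largest weight of a directed cut. -/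
def mac [Fintype V] [DecidableEq V] : ℝ :=
  (Finset.univ : Finset (Finset V)).sup' ⟨∅, Finset.mem_univ _⟩ D.cut

end WDigraph

/-- The set of all `c ≥ 0` such that `mac(D) ≥ c w(D)` for every weighted acyclic digraph `D` of
maximum path order `ν`. -/
def cSet (ν : ℕ) : Set ℝ :=
  {c | 0 ≤ c ∧ ∀ (V : Type) [Fintype V] [DecidableEq V] (D : WDigraph V), D.Acyclic →
    D.MaxPathOrder ν → c * D.total ≤ D.mac}

/-- The constant `c_ν`. -/
noncomputable def cConst (ν : ℕ) : ℝ := sSup (cSet ν)

open Pool.Agent.LibHelper99.Mac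

/-- the weight of the arc `(i, j)`: the sum of the multipliers of the windows containing both -/
noncomputable def wt (m k i j : ℕ) : ℝ :=
  ∑ x ∈ range (4 * m), lam m x * ∑ q ∈ range k, ∑ p ∈ range q,
    if i = x + p ∧ j = x + q then 1 else 0

theorem wt_nonneg (m k i j : ℕ) : 0 ≤ wt m k i j := by
  refine sum_nonneg fun x hx => mul_nonneg (lam_tau m x (mem_range.1 hx)).1 ?_
  refine sum_nonneg fun q _ => sum_nonneg fun p _ => ?_
  split_ifs <;> norm_num

theorem wt_eq_zero (m k i j : ℕ) (h : ¬ i < j) : wt m k i j = 0 := by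
  refine sum_eq_zero fun x _ => ?_
  rw [sum_eq_zero, mul_zero]
  intro q _
  refine sum_eq_zero fun p hp => if_neg ?_
  rintro ⟨h1, h2⟩
  have := mem_range.1 hp
  omega

theorem sum_wt {m k ν : ℕ} (h : 4 * m + k ≤ ν + 1) (f : ℕ → ℕ → ℝ) :
    ∑ i : Fin ν, ∑ j : Fin ν, wt m k i j * f i j =
      ∑ x ∈ range (4 * m), lam m x * ∑ q ∈ range k, ∑ p ∈ range q, f (x + p) (x + q) := by
  have h1 : ∀ i j : ℕ, wt m k i j * f i j = ∑ x ∈ range (4 * m), ∑ q ∈ range k, ∑ p ∈ range q,
      lam m x * (if i = x + p ∧ j = x + q then f i j else 0) := by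
    intro i j
    unfold wt
    simp_rw [sum_mul, mul_sum, sum_mul]
    refine sum_congr rfl fun x _ => sum_congr rfl fun q _ => sum_congr rfl fun p _ => ?_
    split_ifs <;> ring
  simp_rw [h1]
  have h2 : ∑ i : Fin ν, ∑ j : Fin ν, ∑ x ∈ range (4 * m), ∑ q ∈ range k, ∑ p ∈ range q,
      lam m x * (if (i : ℕ) = x + p ∧ (j : ℕ) = x + q then f i j else 0) =
      ∑ x ∈ range (4 * m), ∑ q ∈ range k, ∑ p ∈ range q, ∑ i : Fin ν, ∑ j : Fin ν,
      lam m x * (if (i : ℕ) = x + p ∧ (j : ℕ) = x + q then f i j else 0) := by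
    calc _ = ∑ i : Fin ν, ∑ x ∈ range (4 * m), ∑ q ∈ range k, ∑ p ∈ range q, ∑ j : Fin ν,
          lam m x * (if (i : ℕ) = x + p ∧ (j : ℕ) = x + q then f i j else 0) := by
          refine sum_congr rfl fun i _ => ?_
          rw [sum_comm]
          refine sum_congr rfl fun x _ => ?_
          rw [sum_comm]
          refine sum_congr rfl fun q _ => ?_
          rw [sum_comm]
      _ = _ := by
          rw [sum_comm]
          refine sum_congr rfl fun x _ => ?_
          rw [sum_comm]
          refine sum_congr rfl fun q _ => ?_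
          rw [sum_comm]
  rw [h2]
  refine sum_congr rfl fun x hx => ?_
  rw [mul_sum]
  refine sum_congr rfl fun q hq => ?_
  rw [mul_sum]
  refine sum_congr rfl fun p hp => ?_
  have hx' := mem_range.1 hx
  have hq' := mem_range.1 hq
  have hp' := mem_range.1 hp
  have hi : x + p < ν := by omega
  have hj : x + q < ν := by omega
  rw [sum_eq_single (⟨x + p, hi⟩ : Fin ν), sum_eq_single (⟨x + q, hj⟩ : Fin ν)]
  · simp
  · intro b _ hb
    rw [if_neg, mul_zero]
    rintro ⟨_, h4⟩
    exact hb (Fin.ext h4)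
  · intro hb; exact absurd (mem_univ _) hb
  · intro b _ hb
    refine sum_eq_zero fun j _ => ?_
    rw [if_neg, mul_zero]
    rintro ⟨h4, _⟩
    exact hb (Fin.ext h4)
  · intro hb; exact absurd (mem_univ _) hb

/-- the weighted transitive tournament -/
noncomputable def tour (m k ν : ℕ) : WDigraph (Fin ν) where
  Arc i j := i < j
  w i j := wt m k i j
  w_nonneg i j := wt_nonneg _ _ _ _
  w_eq_zero i j h := wt_eq_zero _ _ _ _ (by simpa using h)

theorem tour_acyclic (m k ν : ℕ) : (tour m k ν).Acyclic := by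
  intro v hv
  have : ∀ {a b : Fin ν}, Relation.TransGen (tour m k ν).Arc a b → a < b := by
    intro a b h
    induction h with
    | single h => exact h
    | tail _ h ih => exact lt_trans ih h
  exact lt_irrefl _ (this hv)

theorem tour_maxPathOrder (m k ν : ℕ) (hν : 0 < ν) : (tour m k ν).MaxPathOrder ν := by
  constructor
  · refine ⟨List.finRange ν, ⟨?_, List.nodup_finRange ν, ?_⟩, List.length_finRange⟩
    · intro h
      have := congrArg List.length h
      simp at this
      omega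
    · have h1 : (List.finRange ν).Pairwise (· < ·) := List.pairwise_lt_finRange ν
      exact h1.isChain
  · rintro n ⟨l, ⟨_, hl, _⟩, rfl⟩
    simpa using hl.length_le_card

theorem tour_total {m k ν : ℕ} (h : 4 * m + k ≤ ν + 1) :
    (tour m k ν).total = 4 * (m : ℝ) ^ 3 * (k * (k - 1) / 2) := by
  have h1 := sum_wt h (fun _ _ => 1)
  simp only [mul_one] at h1
  change ∑ i : Fin ν, ∑ j : Fin ν, wt m k i j = _
  rw [h1]
  have h2 : ∑ q ∈ range k, ∑ _p ∈ range q, (1 : ℝ) = (k : ℝ) * (k - 1) / 2 := by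
    simp only [sum_const, card_range, nsmul_eq_mul, mul_one]
    induction k with
    | zero => simp
    | succ k ih =>
      rw [sum_range_succ, ih (by omega) (by
        have := sum_wt (m := m) (k := k) (ν := ν) (by omega) (fun _ _ => 1)
        simpa only [mul_one] using this)]
      push_cast; ring
  rw [← sum_mul, h2, sum_lam]

theorem tour_cut_le {m k ν : ℕ} (hm : 0 < m) (h : 4 * m + k ≤ ν + 1) (X : Finset (Fin ν)) :
    (tour m k ν).cut X ≤ 1 / 4 * ((tour m k ν).total + R m k) := by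
  classical
  let s : ℕ → ℝ := fun i => if hi : i < ν then (if (⟨i, hi⟩ : Fin ν) ∈ X then 1 else -1) else -1
  have hs : ∀ i, s i = 1 ∨ s i = -1 := by
    intro i
    simp only [s]
    split_ifs <;> simp
  have hsF : ∀ i : Fin ν, s i = if i ∈ X then 1 else -1 := by
    intro i
    simp only [s, dif_pos i.2]
  have h1 : (tour m k ν).cut X =
      ∑ i : Fin ν, ∑ j : Fin ν, wt m k i j * ((1 + s i) * (1 - s j) / 4) := by
    unfold WDigraph.cut
    have e1 : ∀ i : Fin ν, ∑ j ∈ Xᶜ, (tour m k ν).w i j =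
        ∑ j : Fin ν, wt m k i j * ((1 - s j) / 2) := by
      intro i
      rw [← Finset.sum_subset (Finset.subset_univ Xᶜ)]
      · refine sum_congr rfl fun j hj => ?_
        rw [mem_compl] at hj
        rw [hsF, if_neg hj]
        change wt m k i j = _
        ring
      · intro j _ hj
        rw [mem_compl, not_not] at hj
        rw [hsF, if_pos hj]
        ring
    rw [← Finset.sum_subset (Finset.subset_univ X)]
    · refine sum_congr rfl fun i hi => ?_
      rw [e1]
      refine sum_congr rfl fun j _ => ?_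
      rw [hsF i, if_pos hi]
      ring
    · intro i _ hi
      refine sum_eq_zero fun j _ => ?_
      rw [hsF i, if_neg hi]
      ring
  have h2 := sum_wt h (fun i j => (1 + s i) * (1 - s j) / 4)
  have h3 := sum_wt h (fun _ _ => 1)
  simp only [mul_one] at h3
  have h4 : (tour m k ν).total = ∑ i : Fin ν, ∑ j : Fin ν, wt m k i j := rfl
  rw [h1, h2, h4, h3]
  have h5 := main_ineq m k hm s hs
  have h6 : ∑ x ∈ range (4 * m), lam m x * ∑ q ∈ range k, ∑ p ∈ range q,
      (1 + s (x + p)) * (1 - s (x + q)) / 4 =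
      1 / 4 * (∑ x ∈ range (4 * m), lam m x * ∑ q ∈ range k, ∑ p ∈ range q, (1 : ℝ) +
      ∑ x ∈ range (4 * m), lam m x * ∑ q ∈ range k, ∑ p ∈ range q,
        (s (x + p) - s (x + q) - s (x + p) * s (x + q))) := by
    rw [← sum_add_distrib, mul_sum]
    refine sum_congr rfl fun x _ => ?_
    rw [← mul_add, ← sum_add_distrib, mul_left_comm]
    congr 1
    rw [mul_sum]
    refine sum_congr rfl fun q _ => ?_
    rw [← sum_add_distrib, mul_sum]
    refine sum_congr rfl fun p _ => ?_
    ring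
  rw [h6]
  have h7 : R m k = 6 * (((k : ℝ) + 2) * (k + 1) * k * (k - 1) * (k - 2) / 180) +
      (((k : ℝ) ^ 2 - 1) / 3) ^ 2 / 2 * ((8 * (m : ℝ) - 3 + 1 / m) / 3) +
      k / 2 * (4 * (m : ℝ) ^ 3) := rfl
  rw [← h7] at h5
  linarith

/-- Every `c` in the set defining `c_ν` is at most `1/4 + ν^(-2/3)`, for `ν ≥ 12`. -/
theorem cSet_le (ν : ℕ) (hν : 12 ≤ ν) (c : ℝ) (hc : c ∈ cSet ν) :
    c ≤ 1 / 4 + (ν : ℝ) ^ (-(2 / 3) : ℝ) := by
  obtain ⟨_, hc⟩ := hc
  obtain ⟨m, k, hm, hk, hmk, hR⟩ := exists_params ν hν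
  have h1 := hc (Fin ν) (tour m k ν) (tour_acyclic m k ν) (tour_maxPathOrder m k ν (by omega))
  have h2 : (tour m k ν).mac ≤ 1 / 4 * ((tour m k ν).total + R m k) :=
    Finset.sup'_le _ _ fun X _ => tour_cut_le hm hmk X
  have hk' : (2 : ℝ) ≤ k := by exact_mod_cast hk
  have hk1 : (0 : ℝ) < (k : ℝ) - 1 := by linarith
  have hm' : (0 : ℝ) < m := by exact_mod_cast hm
  have h3 := h1.trans h2
  rw [tour_total hmk] at h3
  have hpos : 0 < 4 * (m : ℝ) ^ 3 * (k * (k - 1) / 2) := by positivity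
  have h4 : c * (4 * (m : ℝ) ^ 3 * (k * (k - 1) / 2)) ≤
      (1 / 4 + (ν : ℝ) ^ (-(2 / 3) : ℝ)) * (4 * (m : ℝ) ^ 3 * (k * (k - 1) / 2)) := by
    nlinarith [hR]
  exact le_of_mul_le_mul_right h4 hpos

theorem zero_mem_cSet (ν : ℕ) : (0 : ℝ) ∈ cSet ν := by
  refine ⟨le_rfl, fun V _ _ D _ _ => ?_⟩
  rw [zero_mul]
  refine le_trans (le_of_eq ?_) (Finset.le_sup' D.cut (Finset.mem_univ (∅ : Finset V)))
  simp [WDigraph.cut]

/-- For `ν ≥ 12` the set defining `c_ν` is nonempty and bounded above, so that `c_ν` is its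
genuine supremum. -/
theorem cConst_isLUB (ν : ℕ) (hν : 12 ≤ ν) : IsLUB (cSet ν) (cConst ν) :=
  isLUB_csSup ⟨0, zero_mem_cSet ν⟩ ⟨_, fun c hc => cSet_le ν hν c hc⟩

/-- For every `ν ≥ 12`, `c_ν ≤ 1/4 + ν^(-2/3)`. -/
theorem result (ν : ℕ) (hν : 12 ≤ ν) : cConst ν ≤ 1 / 4 + (ν : ℝ) ^ (-(2 / 3) : ℝ) :=
  csSup_le ⟨0, zero_mem_cSet ν⟩ fun c hc => cSet_le ν hν c hc

end Pool.Agent.Results.MP_ef82d1_co.UpperBound
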